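import Pool.Agent.Helper729.SRDMain

/-!
# Surjective preservers of the spectral radius of differences (first question)

For complex Banach spaces `X`, `Y`, a map `φ : 𝓑(X) → 𝓑(Y)` (no linearity, additivity or
continuity assumed) is surjective and satisfies `r(φ(T) - φ(S)) = r(T - S)` for all `T`, `S` if
and only if, for some `B` in `𝓑(Y)` and some scalar `α` with `|α| = 1`,
`φ(T) = α A T A⁻¹ + B` with `A : X → Y` bounded, bijective and linear or conjugate-linear, or
`φ(T) = α A T* A⁻¹ + B` with `A : X* → Y` bounded, bijective and linear or conjugate-linear and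
`X` reflexive.
-/

set_option autoImplicit false

open Pool.Agent.Helper729.SRD in
theorem Pool.Agent.Results.MP_6989a0_an.DifferencePreservers.result {X Y : Type*}
    [NormedAddCommGroup X] [NormedSpace ℂ X] [CompleteSpace X]
    [NormedAddCommGroup Y] [NormedSpace ℂ Y] [CompleteSpace Y]
    (φ : (X →L[ℂ] X) → (Y →L[ℂ] Y)) :
    (Function.Surjective φ ∧
      ∀ T S : X →L[ℂ] X, spectralRadius ℂ (φ T - φ S) = spectralRadius ℂ (T - S)) ↔
    ∃ B : Y →L[ℂ] Y, IsStandard φ B :=
  q1 φ
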